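import Pool.Agent.U345.ZQ

/-!
# Moments of zeta of order `2k` along arithmetic progressions of step `c / log T`, `c < 2π/k`

Let `k` be a natural number. For `1 ≤ U ≤ T / log T` let `moment k T U` be the integral of
`|ζ(1/2 + iy)|^(2k)` over `y`, with the Gaussian weight `exp (-((y - T) / U)^2)`, i.e. essentially over
the interval of length about `U` around `T` (`U` may be bounded, e.g. `U = 1`).

Unconditionally, for every `c < 2π/k`, the moment is asymptotically equal to the corresponding sum over
an arbitrary arithmetic progression with the step `c / log T`,
`(c / log T) ∑ |ζ(1/2 + i(x + nc / log T))|^(2k) exp (-((x + nc / log T - T) / U)^2)`,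
as `T → ∞`, uniformly in the starting point `x` and in the window `1 ≤ U ≤ T / log T`. So for the
exponent `2k` every asymptotic formula and every bound for the moment is equivalent to the one for its
discrete form along any of these progressions, e.g. in a single interval of length `1` a sum over about
`(k/2π + ε) log T` equally spaced points determines the moment, whatever its size is (which is not
known for `k ≥ 3` and, in short intervals, not even for `k = 1, 2`).

For `k = 1` the limit `2π` is the mean distance of the zeros of zeta, and of the Gram points.

Proof: Poisson summation for `|ζ|^(2k)` times the weight. The Fourier transform is estimated by moving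
the line of integration, which gives the product of the means on the lines `1/2 ± a / log T`; these
are controlled by the convexity of the means and by the functional equation, for every fixed `a`, and
`a → ∞` at the end.
-/

set_option autoImplicit false

namespace Pool.Agent.Results.MP_f9aece_nt.ArithmeticProgressions

open MeasureTheory Filter Topology

/-- the Gaussian weight of width `U` around `T` -/
noncomputable def weight (T U y : ℝ) : ℝ := Real.exp (-((y - T) / U) ^ 2)

/-- the function `|ζ(1/2 + iy)|^(2k) exp (-((y - T) / U)^2)` -/
noncomputable def integrand (k : ℕ) (T U y : ℝ) : ℝ :=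
  ‖riemannZeta (((1 / 2 : ℝ) : ℂ) + y * Complex.I)‖ ^ (2 * k) * weight T U y

/-- the moment `∫ |ζ(1/2 + iy)|^(2k) exp (-((y - T) / U)^2) dy` -/
noncomputable def moment (k : ℕ) (T U : ℝ) : ℝ := ∫ y : ℝ, integrand k T U y

/-- the sum over the progression `x + nh`, `n` an integer, times `h` -/
noncomputable def progression (k : ℕ) (T U h x : ℝ) : ℝ :=
  h * ∑' n : ℤ, integrand k T U (x + h * n)

/-- Let `k` be a natural number, `c > 0`, `ck < 2π` and `ε > 0`. There is `T₀` such that for all
`T ≥ T₀` and all `U` with `1 ≤ U ≤ T / log T` the moment is positive and for every real `x` the sum over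
the progression with the step `c / log T` through `x` converges and differs from the moment by at most
`ε` times the moment. -/
theorem result (k : ℕ) {c ε : ℝ} (hc : 0 < c) (hck : c * k < 2 * Real.pi) (hε : 0 < ε) :
    ∃ T₀ : ℝ, ∀ T : ℝ, T₀ ≤ T → ∀ U : ℝ, 1 ≤ U → U ≤ T / Real.log T →
    0 < moment k T U ∧ ∀ x : ℝ,
    Summable (fun n : ℤ => integrand k T U (x + c / Real.log T * n)) ∧
    |progression k T U (c / Real.log T) x - moment k T U| ≤ ε * moment k T U := by
  obtain ⟨T1, hT1⟩ := eventually_atTop.mp (U345Z.progZ k hc hck hε)
  refine ⟨max 3 T1, fun T hT U hU1 hU2 => ?_⟩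
  exact hT1 T (le_of_max_le_right hT) U ⟨le_of_max_le_left hT, hU1, hU2⟩

end Pool.Agent.Results.MP_f9aece_nt.ArithmeticProgressions
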