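import Pool.Agent.U196.UM.Exact
import Pool.Agent.U196.UM.Mass3

set_option autoImplicit false

/-!
# The exact order of the moments of order `β ≤ 2`, relative to every Dirichlet polynomial

Unconditionally, let `β_1, ..., β_n ≥ 0` with `β_1 + ... + β_n ≤ 2`, let `|α_j| ≤ T/2` be real shifts and put
`V(t) = ∏_j |ζ(1/2 + i(t + α_j))|^(β_j)`. For large `T` (in terms of `n` only):

* `∫_T^{2T} V(t) dt` is, up to factors `c, C > 0` depending on `n` only, equal to
  `T ∏_{i,j} |ζ(1 + 1/log T + i(α_i - α_j))|^(β_i β_j / 4)` (for `n = 1` it is `T (log T)^(β²/4)`);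
* there is ONE Dirichlet polynomial `E` of length `T^(1/8)`, depending on the `β_j`, `α_j` and `T`, such that for ALL Dirichlet
  polynomials `B` of length `T^θ` the integral `∫_T^{2T} V |B|² dt` lies between `c` and `C` times `∫_T^{2T} |E B|² dt`.

So the weights `V` and `|E|²` cannot be distinguished, up to constants, by Dirichlet polynomials of length `T^θ`; in
particular for `n = 1` this is a version with arbitrary twists of the theorem of Heap, Radziwill and Soundararajan on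
the moments of order `β ≤ 2` (without twist).

The proof is the theorem of the library by helper97 and others of an earlier round (`Pool.Agent.Q97.UM.b_UBM`, `b_LBK`, `b_EK9`,
`b_EN2`; no hand-in used them), and Mertens' theorem on the line `Re s = 1 + 1/log T`.
-/

namespace Pool.Agent.Results.MP_f9aece_nt.ExactOrderEveryPolynomial

open Filter Topology MeasureTheory Complex

noncomputable section

/-- the Dirichlet polynomial with the coefficients `b_1, ..., b_N` on the critical line -/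
def B (N : ℕ) (b : ℕ → ℂ) (t : ℝ) : ℂ := ∑ n ∈ Finset.Icc 1 N, b n * (n : ℂ) ^ (-(1 / 2 + t * I))

/-- the product `∏_j |ζ(1/2 + i(t + α_j))|^(β_j)` -/
def V {n : ℕ} (β α : Fin n → ℝ) (t : ℝ) : ℝ := ∏ j, ‖riemannZeta (1 / 2 + (t + α j : ℝ) * I)‖ ^ (β j)

/-- the order `∏_{i,j} |ζ(1 + 1/log T + i(α_i - α_j))|^(β_i β_j / 4)` of its mean value -/
def order (T : ℝ) {n : ℕ} (β α : Fin n → ℝ) : ℝ :=
  ∏ i, ∏ j, ‖riemannZeta (1 + 1 / Real.log T + (α i - α j) * I)‖ ^ (β i * β j / 4)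

theorem V_continuous {n : ℕ} (β α : Fin n → ℝ) (hβ : ∀ j, 0 ≤ β j) : Continuous (V β α) := by
  unfold V
  refine continuous_finsetProd _ fun j _ => ?_
  have h : Continuous fun t : ℝ => ‖Pool.Agent.Q97.UM.zt (t + α j)‖ := by
    have := Pool.Agent.U196.UM.continuous_zt
    fun_prop
  exact h.rpow_const fun _ => Or.inr (hβ j)

theorem V_nonneg {n : ℕ} (β α : Fin n → ℝ) (t : ℝ) : 0 ≤ V β α t :=
  Finset.prod_nonneg fun j _ => by positivity

theorem order_eq (T : ℝ) {n : ℕ} (β α : Fin n → ℝ) : order T β α = Pool.Agent.U196.UM.pred T (fun j => β j / 2) α := by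
  unfold order Pool.Agent.U196.UM.pred
  refine Finset.prod_congr rfl fun i _ => Finset.prod_congr rfl fun j _ => ?_
  congr 1
  ring

theorem lint {T : ℝ} (hT : 0 ≤ T) {f : ℝ → ℝ} (hf : Continuous f) (h0 : ∀ t, 0 ≤ f t) :
    (∫⁻ t in Set.Icc T (2 * T), ENNReal.ofReal (f t)) = ENNReal.ofReal (∫ t in T..(2 * T), f t) := by
  rw [intervalIntegral.integral_of_le (by linarith), ← integral_Icc_eq_integral_Ioc,
    ofReal_integral_eq_lintegral_ofReal (hf.integrableOn_Icc) (ae_of_all _ fun t => h0 t)]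

/-- **The exact order of the moments of order at most two with arbitrary shifts, relative to every Dirichlet polynomial.** -/
theorem result (n : ℕ) : ∃ θ c C T₀ : ℝ, 0 < θ ∧ 0 < c ∧ 0 < C ∧ ∀ T : ℝ, T₀ ≤ T → ∀ β α : Fin n → ℝ,
    (∀ j, 0 ≤ β j) → ∑ j, β j ≤ 2 → (∀ j, |α j| ≤ T / 2) →
      (c * (T * order T β α) ≤ (∫ t in T..(2 * T), V β α t) ∧ ∫ t in T..(2 * T), V β α t ≤ C * (T * order T β α)) ∧
      ∃ (M : ℕ) (e : ℕ → ℂ), (M : ℝ) ≤ T ^ (1 / 8 : ℝ) ∧ ∀ N : ℕ, (N : ℝ) ≤ T ^ θ → ∀ b : ℕ → ℂ,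
        c * (∫ t in T..(2 * T), ‖B M e t * B N b t‖ ^ 2) ≤ (∫ t in T..(2 * T), V β α t * ‖B N b t‖ ^ 2) ∧
        ∫ t in T..(2 * T), V β α t * ‖B N b t‖ ^ 2 ≤ C * ∫ t in T..(2 * T), ‖B M e t * B N b t‖ ^ 2 := by
  obtain ⟨θ, c, C, hθ, hc, hC, h⟩ := Pool.Agent.U196.UM.exact n
  rw [Filter.eventually_atTop] at h
  obtain ⟨T₀, hT₀⟩ := h
  refine ⟨θ, min c (c * c), max C (C * C), max T₀ 1, hθ, by positivity, by positivity, fun T hT β α hβ hβ2 hα => ?_⟩
  have hT1 : 1 ≤ T := (le_max_right _ _).trans hT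
  have hT0 : 0 ≤ T := by linarith
  have hsum : ∑ j, β j / 2 ≤ 1 := by rw [← Finset.sum_div]; linarith
  obtain ⟨M, e, hM, h1, h2, h3⟩ := hT₀ T ((le_max_left _ _).trans hT) (fun j => β j / 2) α
    (fun j => by have := hβ j; positivity) hsum hα
  rw [← order_eq] at h1 h2
  have hord : 0 ≤ T * order T β α := by
    rw [order_eq]
    exact mul_nonneg hT0 (Pool.Agent.U196.UM.pred_nonneg _ _ _)
  have hV : ∀ t, (∏ j, ‖Pool.Agent.Q97.UM.zt (t + α j)‖ ^ (2 * (β j / 2))) = V β α t := by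
    intro t
    unfold V
    refine Finset.prod_congr rfl fun j _ => ?_
    rw [show 2 * (β j / 2) = β j by ring]
    rfl
  simp only [hV] at h3
  have hVc := V_continuous β α hβ
  have hBc : ∀ (N : ℕ) (b : ℕ → ℂ), Continuous (B N b) := fun N b => (Pool.Agent.Q84.UM.t_DPM.2.2 N b 0).2
  have hlow : ∀ N : ℕ, (N : ℝ) ≤ T ^ θ → ∀ b : ℕ → ℂ,
      c * (∫ t in T..(2 * T), ‖B M e t * B N b t‖ ^ 2) ≤ ∫ t in T..(2 * T), V β α t * ‖B N b t‖ ^ 2 := by
    intro N hN b
    have h4 := (h3 N hN b).1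
    have hcont : Continuous fun t => V β α t * ‖B N b t‖ ^ 2 := by
      have := hBc N b
      fun_prop
    have hnn : ∀ t, 0 ≤ V β α t * ‖B N b t‖ ^ 2 := fun t => mul_nonneg (V_nonneg β α t) (sq_nonneg _)
    have h5 : ENNReal.ofReal (c * (∫ t in T..(2 * T), ‖B M e t * B N b t‖ ^ 2)) ≤
        ENNReal.ofReal (∫ t in T..(2 * T), V β α t * ‖B N b t‖ ^ 2) := by
      rw [← lint hT0 hcont hnn]
      exact h4
    exact (ENNReal.ofReal_le_ofReal_iff (intervalIntegral.integral_nonneg (by linarith) fun t _ => hnn t)).1 h5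
  have hupp : ∀ N : ℕ, (N : ℝ) ≤ T ^ θ → ∀ b : ℕ → ℂ,
      ∫ t in T..(2 * T), V β α t * ‖B N b t‖ ^ 2 ≤ C * ∫ t in T..(2 * T), ‖B M e t * B N b t‖ ^ 2 :=
    fun N hN b => (h3 N hN b).2
  have hnn : ∀ (N : ℕ) (b : ℕ → ℂ), 0 ≤ ∫ t in T..(2 * T), ‖B M e t * B N b t‖ ^ 2 :=
    fun N b => intervalIntegral.integral_nonneg (by linarith) fun t _ => by positivity
  refine ⟨?_, M, e, hM, fun N hN b => ⟨?_, ?_⟩⟩
  · -- the polynomial `1`
    set b : ℕ → ℂ := fun n => if n = 1 then 1 else 0 with hb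
    have hone : ∀ t, B 1 b t = 1 := by
      intro t
      unfold B
      simp [hb]
    have h1θ : ((1 : ℕ) : ℝ) ≤ T ^ θ := by rw [Nat.cast_one]; exact Real.one_le_rpow hT1 hθ.le
    have l := hlow 1 h1θ b
    have u := hupp 1 h1θ b
    simp only [hone, mul_one, norm_one, one_pow] at l u
    constructor
    · calc min c (c * c) * (T * order T β α) ≤ c * c * (T * order T β α) :=
            mul_le_mul_of_nonneg_right (min_le_right _ _) hord
        _ = c * (c * (T * order T β α)) := by ring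
        _ ≤ c * ∫ t in T..(2 * T), ‖B M e t‖ ^ 2 := mul_le_mul_of_nonneg_left h1 hc.le
        _ ≤ _ := l
    · calc ∫ t in T..(2 * T), V β α t ≤ C * ∫ t in T..(2 * T), ‖B M e t‖ ^ 2 := u
        _ ≤ C * (C * (T * order T β α)) := mul_le_mul_of_nonneg_left h2 hC.le
        _ = C * C * (T * order T β α) := by ring
        _ ≤ _ := mul_le_mul_of_nonneg_right (le_max_right _ _) hord
  · exact (mul_le_mul_of_nonneg_right (min_le_left _ _) (hnn N b)).trans (hlow N hN b)
  · exact (hupp N hN b).trans (mul_le_mul_of_nonneg_right (le_max_left _ _) (hnn N b))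

end

end Pool.Agent.Results.MP_f9aece_nt.ExactOrderEveryPolynomial
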