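import Pool.Agent.U345.ZU

/-!
# The maxima of `|ζ|` between its zeros on the critical line, against the moments of every even order

Let `k ≥ 1`. For `1 ≤ U ≤ T / log T` let `moment k T U` be the integral of `|ζ(1/2 + iy)|^(2k)` over `y`, with the Gaussian weight
`exp (-((y - T) / U)^2)`, i.e. essentially over the interval of length about `U` around `T` (`U` may be bounded, e.g. `U = 1`).

Theorem (unconditional). Let `X` be a finite set of real numbers such that there is a zero of `ζ(1/2 + iy)` between any two
elements of `X`. Then the sum of `|ζ(1/2 + ix)|^(2k)` over the `x` in `X`, with the weight, is at most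
`(k/2 + ε) log T` times the moment, for all `T ≥ T₀(k, ε)`, uniformly in `U` and `X`.

In particular, for arbitrary zeros `γ_0 ≤ γ_1 ≤ … ≤ γ_n` of `ζ(1/2 + iy)` (for instance all consecutive ones, nothing is assumed on their
distances, multiplicities or number) the sum over `j` of the maxima of `|ζ(1/2 + ix)|^(2k) exp (-((x - T) / U)^2)` over the
intervals `[γ_j, γ_(j+1)]` is at most `(k/2 + ε) log T` times the moment. So one value with
`|ζ(1/2 + ix)|^(2k) exp (-((x - T) / U)^2) > V` in each of `N` different gaps between the zeros forces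
`moment ≥ N V / ((k/2 + ε) log T)`.

The order is the expected one: on the Riemann hypothesis the sum for `[T, 2T]` is of order `T (log T)^(k² + 1)` (up to `ε` in the
exponent), and the moment of order `T (log T)^(k²)`. For `k = 1` and `[0, T]` an asymptotic formula is known on the Riemann hypothesis
(Conrey and Ghosh), unconditional bounds for `k = 1, 2` are due to Hall; for `k ≥ 3` Milinovich's bounds assume the Riemann hypothesis.

Proof. Let `f(y)` be `((s - 1) ζ(s))^k` times a Gaussian and the factor `T^(iky/2)`, on the critical line. By convexity and the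
functional equation the spectrum of `f` is essentially in `[-(k/2) log T, (k/2) log T]`, in the sense that
`‖f'‖ ≤ (k/2 + o(1)) log T ‖f‖` in the mean square; this needs no information on the size of the moment. Since `f` vanishes at the
zeros, `|f(x)|²` is at most the integral of `|f f'|` over the gap, and the gaps are disjoint. The far part of the line is
treated by estimates for all derivatives of `f` (Cauchy's formula).
-/

set_option autoImplicit false

namespace Pool.Agent.Results.MP_f9aece_nt.MaximaBetweenZeros

open MeasureTheory Filter Topology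

/-- the point `1/2 + iy` -/
noncomputable def point (y : ℝ) : ℂ := ((1 / 2 : ℝ) : ℂ) + y * Complex.I

/-- the function `|ζ(1/2 + iy)|^(2k) exp (-((y - T) / U)^2)` -/
noncomputable def integrand (k : ℕ) (T U y : ℝ) : ℝ :=
  ‖riemannZeta (point y)‖ ^ (2 * k) * Real.exp (-((y - T) / U) ^ 2)

/-- the moment `∫ |ζ(1/2 + iy)|^(2k) exp (-((y - T) / U)^2) dy` -/
noncomputable def moment (k : ℕ) (T U : ℝ) : ℝ := ∫ y : ℝ, integrand k T U y

/-- between any two elements of `X` there is a zero of `ζ(1/2 + iy)` (it may be one of the two) -/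
def SeparatedByZeros (X : Finset ℝ) : Prop :=
  ∀ x ∈ X, ∀ y ∈ X, x < y → ∃ γ : ℝ, x ≤ γ ∧ γ ≤ y ∧ riemannZeta (point γ) = 0

/-- Let `k ≥ 1` and `ε > 0`. There is `T₀` such that for all `T ≥ T₀`, all `U` with `1 ≤ U ≤ T / log T` and all finite
sets `X` of real numbers which are separated by zeros of zeta on the critical line the sum of `integrand k T U` over `X` is at
most `(k/2 + ε) log T` times the moment. -/
theorem result (k : ℕ) (hk : 1 ≤ k) (ε : ℝ) (hε : 0 < ε) :
    ∃ T₀ : ℝ, ∀ T : ℝ, T₀ ≤ T → ∀ U : ℝ, 1 ≤ U → U ≤ T / Real.log T →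
      ∀ X : Finset ℝ, SeparatedByZeros X →
        ∑ x ∈ X, integrand k T U x ≤ ((k : ℝ) / 2 + ε) * Real.log T * moment k T U := by
  obtain ⟨T1, hT1⟩ := eventually_atTop.mp (U345Z.maxZ k hk hε)
  refine ⟨max 3 T1, fun T hT U hU1 hU2 X hX => ?_⟩
  refine (hT1 T (le_of_max_le_right hT) U ⟨le_of_max_le_left hT, hU1, hU2⟩).2 X fun m hm b hb hmb => ?_
  obtain ⟨γ, h1, h2, h3⟩ := hX m hm b hb hmb
  exact ⟨γ, ⟨h1, h2⟩, h3⟩

end Pool.Agent.Results.MP_f9aece_nt.MaximaBetweenZeros
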