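import Pool.Agent.U922.OL.Three

/-!
# The order of the moments of zeta of real order `p > 1` is decided by the values on one line

For `u ≠ 0` let `L p u S T` be the sum of `|ζ(1/2 + it)|^p` over the heights `S < t ≤ T` (`t > 100`) at which `ζ(1/2 + it)` is a
nonzero point of the line `u ℝ`; for `u = 1` these are the Gram points at which zeta does not vanish. Let `p > 1` be real.

* (comparison) there are `C`, `T₀` such that for all `T ≥ T₀` and all directions `u`: `log T ∫_T^{8T} |ζ(1/2 + it)|^p dt` is at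
  most `C L p u (T/2) (16T)`, and `L p u T (8T)` is at most `C log T ∫_{T/2}^{16T} |ζ(1/2 + it)|^p dt`.
* (upper bounds) for all real `x`, all `E ≥ 0` and every single `u ≠ 0` the bound `a(T) ≪ (log T)^E`, `T ≥ 2`, for the average
  of the problem is equivalent to `L p u 100 T ≪ T (log T)^(E+1)`, `T ≥ 2`. For `E = p²/4` this is the upper bound of the
  predicted order.
* (lower bounds, unconditional) `L p u 100 T ≥ c T (log T)^(p²/4 + 1)` for all `T ≥ T₁` and all directions `u`, `c > 0`.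
* (exact order, unconditional) if `p ≤ 2`, then also `L p u 100 T ≤ K T (log T)^(p²/4 + 1)`, uniformly in `u`.

The first part is `Pool.Agent.W188.GP.a_fin` of the starting library (helper188 and others of an earlier round; bound for the
discrete Hilbert transform on `ℓ^p`), which no hand-in used; `MP_973905_nt.AllRealOrders` needs two perpendicular lines for
the first inequality. The lower bounds use `W181.Mom.uniform_real` and, as the upper bound for `p ≤ 2`, `U196.UM.exact`.
-/

set_option autoImplicit false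

open Filter Topology Set MeasureTheory

namespace Pool.Agent.Results.MP_f9aece_nt.OneLine

open Pool.Agent.U922.OL

theorem result :
    -- comparison
    (∀ p : ℝ, 1 < p → ∃ C T₀ : ℝ, 0 < C ∧ ∀ (u : ℂ) (T : ℝ), u ≠ 0 → T₀ ≤ T →
      Real.log T * (∫ t in T..(8 * T), ‖z t‖ ^ p) ≤ C * L p u (T / 2) (16 * T) ∧
      L p u T (8 * T) ≤ C * (Real.log T * ∫ t in (T / 2)..(16 * T), ‖z t‖ ^ p)) ∧
    -- upper bounds
    (∀ (p E x : ℝ) (u : ℂ), 1 < p → 0 ≤ E → u ≠ 0 →
      ((∃ B : ℝ, ∀ T : ℝ, 2 ≤ T → av p x T ≤ B * Real.log T ^ E) ↔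
        ∃ B : ℝ, ∀ T : ℝ, 2 ≤ T → L p u 100 T ≤ B * (T * Real.log T ^ (E + 1)))) ∧
    -- lower bounds, unconditional
    (∀ p : ℝ, 1 < p → ∃ c T₁ : ℝ, 0 < c ∧ ∀ (u : ℂ) (T : ℝ), u ≠ 0 → T₁ ≤ T →
      c * (T * Real.log T ^ (p ^ 2 / 4 + 1)) ≤ L p u 100 T) ∧
    -- upper bounds of the same order for `p ≤ 2`, unconditional
    (∀ p : ℝ, 1 < p → p ≤ 2 → ∃ K T₁ : ℝ, 0 < K ∧ ∀ (u : ℂ) (T : ℝ), u ≠ 0 → T₁ ≤ T →
      L p u 100 T ≤ K * (T * Real.log T ^ (p ^ 2 / 4 + 1))) := by
  refine ⟨fun p hp => ?_, fun p E x u hp hE hu => ?_, fun p hp => ?_, fun p hp hp2 => ?_⟩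
  · obtain ⟨C, T₀, hC, -, h⟩ := one_cmp hp
    exact ⟨C, T₀, hC, h⟩
  · rw [av_iff (by linarith) hE x]
    exact upper_iff hp hE hu
  · exact line_lower hp (by positivity) (all_lower (by linarith))
  · obtain ⟨c, K, -, hK, hev⟩ := small_exact (by linarith : 0 < p) hp2
    exact line_upper hp (by positivity) ⟨K, hK, hev.mono fun T hT => hT.2⟩

end Pool.Agent.Results.MP_f9aece_nt.OneLine
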